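import Mathlib
import Pool.Agent.V1137.RSeq

/-!
# MP_0ef4f9_co, Q1 (Ringel 1974): `A₄ × (C₂)^m` is R-sequenceable for every `m ≥ 0`.
-/

namespace Pool.Agent.Results.MP_0ef4f9_co.RSeqA4

open Pool.Agent.V1137.RSeq

/-- `(0 1)(2 3)` in `A₄`. -/
def e1 : alternatingGroup (Fin 4) :=
  ⟨Equiv.swap 0 1 * Equiv.swap 2 3, Equiv.Perm.mem_alternatingGroup.2 (by decide)⟩

/-- The 3-cycle `(0 1 2)` in `A₄`. -/
def tt : alternatingGroup (Fin 4) :=
  ⟨Equiv.swap 0 1 * Equiv.swap 1 2, Equiv.Perm.mem_alternatingGroup.2 (by decide)⟩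

/-- The Klein four subgroup. -/
def psi (x : ZMod 2 × ZMod 2) : alternatingGroup (Fin 4) :=
  (if x.1 = 1 then e1 else 1) * (if x.2 = 1 then tt * e1 * tt⁻¹ else 1)

/-- Conjugation by the 3-cycle on the Klein four subgroup. -/
def sg : (ZMod 2 × ZMod 2) ≃ₗ[ZMod 2] (ZMod 2 × ZMod 2) where
  toFun x := (x.2, x.1 + x.2)
  invFun x := (x.1 + x.2, x.1)
  map_add' := by decide
  map_smul' := by decide
  left_inv := by decide
  right_inv := by decide

lemma psi_add : ∀ x y, psi (x + y) = psi x * psi y := by decide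

lemma tt_cube : tt ^ 3 = 1 := by decide

lemma tt_psi : ∀ x, tt * psi x = psi (sg x) * tt := by decide

lemma psi_surj : ∀ z : alternatingGroup (Fin 4), ∃ x, z = psi x ∨ z = psi x * tt ∨
    z = psi x * tt ^ 2 := by decide

lemma card_A4 : Nat.card (alternatingGroup (Fin 4)) = 12 := by
  rw [Nat.card_eq_fintype_card]; decide

/-- Linear identification of a field of order `2 ^ (m + 2)` with `F₂² × F₂^m` in which `1` and `g`
have prescribed images. -/
lemma exists_equiv (m : ℕ) (K : Type) [Field K] [Algebra (ZMod 2) K] [Finite K]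
    (hr : Module.finrank (ZMod 2) K = m + 2) (g : K) (hli : LinearIndependent (ZMod 2) ![1, g]) :
    ∃ φ : K ≃ₗ[ZMod 2] ((ZMod 2 × ZMod 2) × (Fin m → ZMod 2)),
      φ 1 = ((1, 0), 0) ∧ φ g = ((0, 1), 0) := by
  classical
  let P : Submodule (ZMod 2) K := Submodule.span (ZMod 2) (Set.range ![1, g])
  obtain ⟨C, hC⟩ := Submodule.exists_isCompl P
  let B := Module.Basis.span hli
  have hP : Module.finrank (ZMod 2) P = 2 := by
    have := finrank_span_eq_card hli
    simpa using this
  have hCr : Module.finrank (ZMod 2) C = m := by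
    have := Submodule.finrank_add_eq_of_isCompl hC
    omega
  let e2 : P ≃ₗ[ZMod 2] (ZMod 2 × ZMod 2) := B.equivFun.trans (LinearEquiv.finTwoArrow (ZMod 2) (ZMod 2))
  let e3 : C ≃ₗ[ZMod 2] (Fin m → ZMod 2) := LinearEquiv.ofFinrankEq _ _ (by simpa using hCr)
  let φ := (Submodule.prodEquivOfIsCompl P C hC).symm.trans (e2.prodCongr e3)
  have key : ∀ i : Fin 2, φ (![1, g] i) = (e2 (B i), 0) := by
    intro i
    have h2 : (![1, g] i : K) = ((B i : P) : K) := by
      simp only [B]
      rw [Module.Basis.span_apply]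
    simp only [φ, LinearEquiv.trans_apply]
    rw [h2, Submodule.prodEquivOfIsCompl_symm_apply_left]
    simp
  refine ⟨φ, ?_, ?_⟩
  · have := key 0
    simp only [Matrix.cons_val_zero] at this
    rw [this]
    simp [e2, LinearEquiv.finTwoArrow]
  · have := key 1
    simp only [Matrix.cons_val_one, Matrix.cons_val_zero] at this
    rw [this]
    simp [e2, LinearEquiv.finTwoArrow]

theorem result : ∀ m : ℕ, RSequenceable
    (alternatingGroup (Fin 4) × (Fin m → Multiplicative (ZMod 2))) := by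
  intro m
  classical
  let K := GaloisField 2 (m + 2)
  have hcardK : Nat.card K = 2 ^ (m + 2) := GaloisField.card 2 (m + 2) (by omega)
  have : Fintype K := Fintype.ofFinite K
  have : Fintype Kˣ := Fintype.ofFinite Kˣ
  obtain ⟨u, hu⟩ := IsCyclic.exists_generator (α := Kˣ)
  have hcu : Nat.card Kˣ = 2 ^ (m + 2) - 1 := by
    rw [Nat.card_units, hcardK]
  have hpow4 : 4 ≤ 2 ^ (m + 2) := by
    calc 4 = 2 ^ 2 := by norm_num
      _ ≤ 2 ^ (m + 2) := Nat.pow_le_pow_right (by norm_num) (by omega)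
  have hou : orderOf u = 2 ^ (m + 2) - 1 := by
    rw [orderOf_eq_card_of_forall_mem_zpowers hu, hcu]
  let g : K := (u : K)
  have hgq : g ^ (2 ^ (m + 2) - 1) = 1 := by
    have := pow_orderOf_eq_one u
    rw [hou] at this
    have h := congrArg (Units.val) this
    simpa using h
  have hg1 : g ≠ 1 := by
    intro h
    have : u = 1 := Units.ext h
    rw [this, orderOf_one] at hou
    omega
  have hgen : ∀ x : K, x ≠ 0 → ∃ j < 2 ^ (m + 2) - 1, g ^ j = x := by
    intro x hx
    have h := hu (Units.mk0 x hx)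
    rw [← mem_powers_iff_mem_zpowers] at h
    obtain ⟨n, hn⟩ := h
    refine ⟨n % (2 ^ (m + 2) - 1), Nat.mod_lt _ (by omega), ?_⟩
    have h' : g ^ n = x := by
      have := congrArg Units.val hn
      simpa using this
    rw [← h']
    conv_rhs => rw [← Nat.div_add_mod n (2 ^ (m + 2) - 1), pow_add, pow_mul, hgq, one_pow, one_mul]
  have hr : Module.finrank (ZMod 2) K = m + 2 := GaloisField.finrank 2 (by omega)
  have hg0 : g ≠ 0 := u.ne_zero
  have hli : LinearIndependent (ZMod 2) ![(1 : K), g] := by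
    rw [LinearIndependent.pair_iff]
    have hz : ∀ x : ZMod 2, x = 0 ∨ x = 1 := by decide
    intro x y hxy
    rcases hz x with rfl | rfl <;> rcases hz y with rfl | rfl
    · exact ⟨rfl, rfl⟩
    · simp [hg0] at hxy
    · simp at hxy
    · exfalso
      apply hg1
      have h : (1 : K) + g = 0 := by simpa using hxy
      have : g = -1 := by rw [eq_neg_iff_add_eq_zero, add_comm]; exact h
      rw [this, CharTwo.neg_eq]
  obtain ⟨φ, hφ1, hφg⟩ := exists_equiv m K hr g hli
  let σE : ((ZMod 2 × ZMod 2) × (Fin m → ZMod 2)) ≃ₗ[ZMod 2] _ :=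
    sg.prodCongr (LinearEquiv.refl (ZMod 2) (Fin m → ZMod 2))
  let ι : K → alternatingGroup (Fin 4) × (Fin m → Multiplicative (ZMod 2)) :=
    fun x => (psi (φ x).1, fun i => Multiplicative.ofAdd ((φ x).2 i))
  apply rseq_abstract (K := K) (2 ^ (m + 2)) hpow4 g hg1 hgq hgen ι ?_ (tt, 1) ?_
    ((φ.trans σE).trans φ.symm).toAddEquiv ?_ ?_ ?_ ?_ ?_
  · intro x y
    simp only [ι, map_add, Prod.fst_add, Prod.snd_add, psi_add]
    rfl
  · ext1
    · exact tt_cube
    · simp
  · intro x
    have e : φ (((φ.trans σE).trans φ.symm).toAddEquiv x) = (sg (φ x).1, (φ x).2) := by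
      show φ (φ.symm (σE (φ x))) = _
      rw [LinearEquiv.apply_symm_apply]
      rfl
    simp only [ι]
    rw [e]
    ext1
    · exact tt_psi _
    · funext i
      simp
  · show φ.symm (σE (φ 1)) = g
    rw [LinearEquiv.symm_apply_eq, hφ1, hφg]
    rfl
  · show φ.symm (σE (φ g)) = 1 + g
    rw [LinearEquiv.symm_apply_eq, map_add, hφ1, hφg]
    ext1
    · show sg (0, 1) = (1, 0) + (0, 1)
      decide
    · simp [σE]
  · rintro ⟨z, w⟩
    obtain ⟨x, hx⟩ := psi_surj z
    refine ⟨φ.symm (x, fun i => Multiplicative.toAdd (w i)), ?_⟩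
    simp only [ι, LinearEquiv.apply_symm_apply, ofAdd_toAdd]
    rcases hx with h | h | h
    · left; rw [h]
    · right; left
      ext1
      · exact h
      · funext i; simp
    · right; right
      ext1
      · exact h
      · funext i; simp
  · rw [Nat.card_prod, card_A4, Nat.card_fun]
    simp only [Nat.card_eq_fintype_card, Fintype.card_fin, Fintype.card_multiplicative, ZMod.card]
    ring

end Pool.Agent.Results.MP_0ef4f9_co.RSeqA4
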